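import Pool.Agent.BES.Stmts
import Pool.Agent.Helper19_BEO.WEO
import Pool.Agent.Helper60_BEO.IBO

/-!
# Squad BES, row ORS: an eigenfunction is orthogonal to `(Δ + l) (g(ρ) H)`
-/

set_option autoImplicit false

namespace Pool.Agent.BES.H6

open Set Filter Topology MeasureTheory
open scoped InnerProductSpace ENNReal
open Pool.Agent.BE01 Pool.Agent.BES

theorem mj_pos (m j : ℕ) : 0 < mj m j := by
  unfold mj
  positivity

theorem cont_Lg {μ l : ℝ} {g : ℝ → ℝ} (hg : ContDiff ℝ ((⊤ : ℕ∞) : WithTop ℕ∞) g) :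
    Continuous (Lg μ l g) := by
  have h1 := (contDiff_infty_iff_deriv.1 hg).2
  have h2 := (contDiff_infty_iff_deriv.1 h1).2
  have c0 := hg.continuous
  have c1 := h1.continuous
  have c2 := h2.continuous
  unfold Lg
  exact (((continuous_const.mul continuous_id).mul c2).add (continuous_const.mul c1)).add
    (continuous_const.mul c0)

/-- row ORS -/
theorem ors (hct : HctStmt) (sdo : SdoStmt) (pwk : PwkStmt) (sco : ScoStmt) : OrsStmt := by
  intro m j R l g u hR hg hgR hu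
  obtain ⟨hdom, hslt, -⟩ := sdo m R hR
  obtain ⟨hmem, f, F, hfF, hf, hF⟩ := sco m j R g hR hg hgR
  obtain ⟨G, hG, hw⟩ := hu
  have cH : Continuous (Hf (mj m j)) := (hct.1 _ (mj_pos m j)).1
  have cn : Continuous fun x : En 2 => ‖x‖ ^ 2 := continuous_norm.pow 2
  obtain ⟨v, hv⟩ : ∃ v : En 2 → ℝ, v = fun x => g (‖x‖ ^ 2) * Hf (mj m j) x := ⟨_, rfl⟩
  obtain ⟨w, hwd⟩ : ∃ w : En 2 → ℝ, w = fun x => Lg (mj m j) 0 g (‖x‖ ^ 2) * Hf (mj m j) x :=
    ⟨_, rfl⟩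
  have cv : Continuous v := by
    rw [hv]
    exact (hg.continuous.comp cn).mul cH
  have cw : Continuous w := by
    rw [hwd]
    exact ((cont_Lg hg).comp cn).mul cH
  rw [← hv] at hmem hf hF
  have mv : MemLp v 2 (mu (Sec m R)) := Pool.Agent.BEO.H60.memLp_cont cv hdom
  have mw : MemLp w 2 (mu (Sec m R)) := Pool.Agent.BEO.H60.memLp_cont cw hdom
  -- the weak equation for `v`
  have hpw : ∀ ψ, Tst (Sec m R) ψ →
      ∫ x, ⟪gradient ψ x, gradient v x⟫_ℝ ∂(mu (Sec m R)) =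
        - ∫ x, ψ x * w x ∂(mu (Sec m R)) := by
    intro ψ hψ
    rw [hv, hwd]
    exact pwk (mj m j) g (Sec m R) ψ hg hdom.1 hslt hψ
  have hG1 : ∀ G' : Lp (En 2) 2 (mu (Sec m R)),
      ∫ x, ⟪G' x, gradient v x⟫_ℝ ∂(mu (Sec m R)) = ⟪G', hmem.toLp _⟫_ℝ := by
    intro G'
    rw [L2.inner_def]
    refine integral_congr_ae ?_
    filter_upwards [hmem.coeFn_toLp] with x hx
    rw [hx]
  have hU1 : ∀ u' : Lp ℝ 2 (mu (Sec m R)),
      ∫ x, u' x * w x ∂(mu (Sec m R)) = ⟪u', mw.toLp _⟫_ℝ := by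
    intro u'
    rw [L2.inner_def]
    refine integral_congr_ae ?_
    filter_upwards [mw.coeFn_toLp] with x hx
    rw [hx]
    simp only [RCLike.inner_apply, conj_trivial]
    ring
  have h3 : ∫ x, ⟪G x, gradient v x⟫_ℝ ∂(mu (Sec m R)) =
      - ∫ x, u x * w x ∂(mu (Sec m R)) := by
    rw [hG1, hU1]
    have hcl : IsClosed {Q : Lp ℝ 2 (mu (Sec m R)) × Lp (En 2) 2 (mu (Sec m R)) |
        ⟪Q.2, hmem.toLp _⟫_ℝ = - ⟪Q.1, mw.toLp _⟫_ℝ} :=
      isClosed_eq (continuous_snd.inner continuous_const)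
        (continuous_fst.inner continuous_const).neg
    have hsub : {Q : Lp ℝ 2 (mu (Sec m R)) × Lp (En 2) 2 (mu (Sec m R)) |
        ∃ ψ, Tst (Sec m R) ψ ∧ Q.1 =ᵐ[mu (Sec m R)] ψ ∧ Q.2 =ᵐ[mu (Sec m R)] gradient ψ} ⊆
        {Q : Lp ℝ 2 (mu (Sec m R)) × Lp (En 2) 2 (mu (Sec m R)) |
        ⟪Q.2, hmem.toLp _⟫_ℝ = - ⟪Q.1, mw.toLp _⟫_ℝ} := by
      rintro ⟨q1, q2⟩ ⟨ψ, hψ, h1, h2⟩
      show ⟪q2, hmem.toLp _⟫_ℝ = - ⟪q1, mw.toLp _⟫_ℝ
      rw [← hG1, ← hU1]
      have e1 : ∫ x, ⟪q2 x, gradient v x⟫_ℝ ∂(mu (Sec m R)) =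
          ∫ x, ⟪gradient ψ x, gradient v x⟫_ℝ ∂(mu (Sec m R)) := by
        refine integral_congr_ae ?_
        filter_upwards [h2] with x hx
        rw [hx]
      have e2 : ∫ x, q1 x * w x ∂(mu (Sec m R)) = ∫ x, ψ x * w x ∂(mu (Sec m R)) := by
        refine integral_congr_ae ?_
        filter_upwards [h1] with x hx
        rw [hx]
      rw [e1, e2]
      exact hpw ψ hψ
    exact closure_minimal hsub hcl hG
  -- test the equation of `u` with `v`
  have hwex := Pool.Agent.BEO.H19.weo 2 (Sec m R) f (l • u) G F hdom (by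
    intro ψ hψ
    rw [hw ψ hψ, ← integral_const_mul]
    refine integral_congr_ae ?_
    filter_upwards [Lp.coeFn_smul l u] with x hx
    rw [hx]
    simp only [Pi.smul_apply, smul_eq_mul]
    ring) hfF
  have h1 : ∫ x, ⟪G x, F x⟫_ℝ ∂(mu (Sec m R)) =
      ∫ x, ⟪G x, gradient v x⟫_ℝ ∂(mu (Sec m R)) := by
    refine integral_congr_ae ?_
    filter_upwards [hF] with x hx
    rw [hx]
  have h2 : ∫ x, (l • u : Lp ℝ 2 (mu (Sec m R))) x * f x ∂(mu (Sec m R)) =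
      ∫ x, l * (u x * v x) ∂(mu (Sec m R)) := by
    refine integral_congr_ae ?_
    filter_upwards [Lp.coeFn_smul l u, hf] with x hx hx'
    rw [hx, hx']
    simp only [Pi.smul_apply, smul_eq_mul]
    ring
  rw [h1, h3, h2] at hwex
  have i1 : Integrable (fun x => u x * w x) (mu (Sec m R)) :=
    (Lp.memLp u).integrable_mul mw
  have i2 : Integrable (fun x => u x * v x) (mu (Sec m R)) :=
    (Lp.memLp u).integrable_mul mv
  have h4 : (fun x => u x * (Lg (mj m j) l g (‖x‖ ^ 2) * Hf (mj m j) x)) =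
      fun x => u x * w x + l * (u x * v x) := by
    funext x
    rw [hwd, hv]
    unfold Lg
    ring
  rw [h4, integral_add i1 (i2.const_mul l), ← hwex]
  ring

end Pool.Agent.BES.H6
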